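import Pool.Agent.Lib.MP_688fd0_co.TE.Iface5

/-! # Theorem E, helper2: functions of independent uniform levels -/

namespace Pool.Agent.Lib.MP_688fd0_co.TE.H2

universe u v w

section basics

variable {Ω : Type*} [Fintype Ω]

lemma Ex_add (μ : Ω → ℝ) (f g : Ω → ℝ) : Ex μ (fun ω => f ω + g ω) = Ex μ f + Ex μ g := by
  simp only [Ex, mul_add, Finset.sum_add_distrib]

lemma Ex_sub (μ : Ω → ℝ) (f g : Ω → ℝ) : Ex μ (fun ω => f ω - g ω) = Ex μ f - Ex μ g := by
  simp only [Ex, mul_sub, Finset.sum_sub_distrib]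

lemma Ex_const_mul (μ : Ω → ℝ) (a : ℝ) (f : Ω → ℝ) : Ex μ (fun ω => a * f ω) = a * Ex μ f := by
  simp only [Ex, Finset.mul_sum]
  exact Finset.sum_congr rfl fun ω _ => by ring

lemma Ex_sum {κ : Type*} (s : Finset κ) (μ : Ω → ℝ) (f : κ → Ω → ℝ) :
    Ex μ (fun ω => ∑ i ∈ s, f i ω) = ∑ i ∈ s, Ex μ (f i) := by
  simp only [Ex, Finset.mul_sum]
  exact Finset.sum_comm

lemma Ex_const (μ : Ω → ℝ) (h : IsPr μ) (a : ℝ) : Ex μ (fun _ => a) = a := by
  simp only [Ex, ← Finset.sum_mul, h.one, one_mul]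

lemma isPr_unifW (Ω : Type*) [Fintype Ω] [Nonempty Ω] : IsPr (unifW Ω) := by
  constructor
  · intro ω; unfold unifW; positivity
  · simp only [unifW, Finset.sum_const, Finset.card_univ, nsmul_eq_mul]
    have : (Fintype.card Ω : ℝ) ≠ 0 := by exact_mod_cast Fintype.card_ne_zero
    field_simp

lemma unifW_eq_piW {ι : Type*} [Fintype ι] [DecidableEq ι] (m : ℕ) [NeZero m] :
    unifW (ι → ZMod m) = piW (fun _ : ι => unifW (ZMod m)) := by
  funext ω
  simp only [unifW, piW, Finset.prod_const, Fintype.card_fun, Finset.card_univ]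
  push_cast
  rw [one_div_pow]

lemma Ex_unif_one {ι : Type u} [Fintype ι] [DecidableEq ι] (hP : PIPR_S.{u, 0}) (m : ℕ) [NeZero m]
    (a : ι) (f : ZMod m → ℝ) :
    Ex (unifW (ι → ZMod m)) (fun lam => f (lam a)) = Ex (unifW (ZMod m)) f := by
  have h := hP.2 ι (fun _ => ZMod m) (fun _ => unifW (ZMod m)) (fun i t => if i = a then f t else 1)
  rw [← unifW_eq_piW] at h
  have h1 : (fun lam : ι → ZMod m => ∏ i, (if i = a then f (lam i) else 1)) =
      fun lam => f (lam a) := by
    funext lam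
    rw [Finset.prod_ite_eq' Finset.univ a (fun i => f (lam i))]
    simp
  have h2 : ∏ i : ι, Ex (unifW (ZMod m)) (fun t => if i = a then f t else 1) =
      Ex (unifW (ZMod m)) f := by
    rw [Finset.prod_eq_single a]
    · simp
    · intro b _ hb
      simp only [hb, if_false]
      exact Ex_const _ (isPr_unifW _) 1
    · intro h; exact absurd (Finset.mem_univ _) h
  rw [h1, h2] at h
  exact h

lemma Ex_unif_two {ι : Type u} [Fintype ι] [DecidableEq ι] (hP : PIPR_S.{u, 0}) (m : ℕ) [NeZero m]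
    (a b : ι) (hab : a ≠ b) (f g : ZMod m → ℝ) :
    Ex (unifW (ι → ZMod m)) (fun lam => f (lam a) * g (lam b)) =
      Ex (unifW (ZMod m)) f * Ex (unifW (ZMod m)) g := by
  have h := hP.2 ι (fun _ => ZMod m) (fun _ => unifW (ZMod m))
    (fun i t => (if i = a then f t else 1) * (if i = b then g t else 1))
  rw [← unifW_eq_piW] at h
  have h1 : (fun lam : ι → ZMod m => ∏ i, ((if i = a then f (lam i) else 1) *
      (if i = b then g (lam i) else 1))) = fun lam => f (lam a) * g (lam b) := by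
    funext lam
    rw [Finset.prod_mul_distrib, Finset.prod_ite_eq' Finset.univ a (fun i => f (lam i)),
      Finset.prod_ite_eq' Finset.univ b (fun i => g (lam i))]
    simp
  have h2 : ∏ i : ι, Ex (unifW (ZMod m)) (fun t => (if i = a then f t else 1) *
      (if i = b then g t else 1)) =
      (∏ i : ι, if i = a then Ex (unifW (ZMod m)) f else 1) *
        ∏ i : ι, if i = b then Ex (unifW (ZMod m)) g else 1 := by
    rw [← Finset.prod_mul_distrib]
    refine Finset.prod_congr rfl fun i _ => ?_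
    by_cases ha : i = a
    · have hb : i ≠ b := fun h => hab (ha ▸ h)
      simp [ha, hab]
    · by_cases hb : i = b
      · simp only [if_pos hb, if_neg ha, one_mul]
      · simp only [if_neg ha, if_neg hb, mul_one]
        exact Ex_const _ (isPr_unifW _) 1
  rw [h1, h2, Finset.prod_ite_eq' Finset.univ a, Finset.prod_ite_eq' Finset.univ b] at h
  simpa using h

lemma Ex_unif_ind (m : ℕ) [NeZero m] (l : ZMod m) :
    Ex (unifW (ZMod m)) (fun t => ind (t = l)) = 1 / m := by
  simp only [Ex, unifW, ZMod.card]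
  rw [Finset.sum_eq_single l]
  · rw [ind_of rfl, mul_one]
  · intro b _ hb; rw [ind_not hb, mul_zero]
  · intro h; exact absurd (Finset.mem_univ _) h

lemma Ex_unif_sum (m : ℕ) [NeZero m] (f : ZMod m → ℝ) :
    Ex (unifW (ZMod m)) f = ∑ l, 1 / m * f l := by
  simp only [Ex, unifW, ZMod.card]

end basics

section abs

variable {V ι : Type u} [Fintype V] [Fintype ι] [DecidableEq ι] {m : ℕ} [NeZero m]

/-- The level of `v`, if `κ v` is the coordinate of the vertex. -/
def lvo (κ : V → Option ι) (lam : ι → ZMod m) (v : V) : ZMod m := (κ v).elim 0 lam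

/-- The probability that the level of `v` is `l`. -/
noncomputable def pe (κ : V → Option ι) (v : V) (l : ZMod m) : ℝ :=
  (κ v).elim (ind (0 = l)) (fun _ => 1 / m)

/-- A sum over pairs. -/
noncomputable def Phi (κ : V → Option ι) (A : V → ℝ) (w : V → V → ZMod m → ℝ) (j : ZMod m)
    (lam : ι → ZMod m) : ℝ :=
  ∑ x, A x * ind (lvo κ lam x = j) * (1 - ∑ y, w x y (lvo κ lam y))

lemma pe_nonneg (κ : V → Option ι) (v : V) (l : ZMod m) : 0 ≤ pe κ v l := by
  unfold pe
  cases κ v with
  | none => exact ind_nonneg _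
  | some a => simp only [Option.elim]; positivity

lemma Ex_one (hP : PIPR_S.{u, 0}) (κ : V → Option ι) (x : V) (f : ZMod m → ℝ) :
    Ex (unifW (ι → ZMod m)) (fun lam => f (lvo κ lam x)) = ∑ l, pe κ x l * f l := by
  unfold lvo pe
  cases κ x with
  | none =>
    simp only [Option.elim]
    rw [Ex_const _ (isPr_unifW _), Finset.sum_eq_single 0]
    · rw [ind_of rfl, one_mul]
    · intro b _ hb; rw [ind_not (Ne.symm hb), zero_mul]
    · intro h; exact absurd (Finset.mem_univ _) h
  | some a =>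
    simp only [Option.elim]
    rw [Ex_unif_one hP, Ex_unif_sum]

lemma Ex_two (hP : PIPR_S.{u, 0}) (κ : V → Option ι) (x y : V)
    (hxy : ∀ a, κ x = some a → κ y ≠ some a) (f g : ZMod m → ℝ) :
    Ex (unifW (ι → ZMod m)) (fun lam => f (lvo κ lam x) * g (lvo κ lam y)) =
      (∑ l, pe κ x l * f l) * ∑ l, pe κ y l * g l := by
  rw [← Ex_one hP κ x f, ← Ex_one hP κ y g]
  unfold lvo
  cases hx : κ x with
  | none =>
    simp only [Option.elim]
    rw [Ex_const_mul, Ex_const _ (isPr_unifW _)]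
  | some a =>
    cases hy : κ y with
    | none =>
      simp only [Option.elim]
      rw [Ex_const _ (isPr_unifW _)]
      have : (fun lam : ι → ZMod m => f (lam a) * g 0) = fun lam => g 0 * f (lam a) := by
        funext lam; ring
      rw [this, Ex_const_mul]; ring
    | some b =>
      simp only [Option.elim]
      have hab : a ≠ b := by
        intro h
        exact hxy a hx (by rw [hy, h])
      rw [Ex_unif_two hP m a b hab, Ex_unif_one hP, Ex_unif_one hP]

/-- The mean of `Phi`. -/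
lemma Ex_Phi (hP : PIPR_S.{u, 0}) (κ : V → Option ι) (A : V → ℝ) (w : V → V → ZMod m → ℝ)
    (j : ZMod m) (hind : ∀ x y l, w x y l ≠ 0 → ∀ a, κ x = some a → κ y ≠ some a) :
    Ex (unifW (ι → ZMod m)) (Phi κ A w j) =
      ∑ x, A x * pe κ x j * (1 - ∑ y, ∑ l, pe κ y l * w x y l) := by
  have h1 : (Phi κ A w j : (ι → ZMod m) → ℝ) = fun lam => ∑ x, (A x * ind (lvo κ lam x = j) -
      ∑ y, A x * (ind (lvo κ lam x = j) * w x y (lvo κ lam y))) := by
    funext lam
    unfold Phi
    refine Finset.sum_congr rfl fun x _ => ?_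
    rw [mul_sub, mul_one, Finset.mul_sum]
    congr 1
    exact Finset.sum_congr rfl fun y _ => by ring
  rw [h1, Ex_sum]
  refine Finset.sum_congr rfl fun x _ => ?_
  rw [Ex_sub, Ex_sum, Ex_const_mul, Ex_one hP κ x (fun l => ind (l = j))]
  have h2 : ∑ l : ZMod m, pe κ x l * ind (l = j) = pe κ x j := by
    rw [Finset.sum_eq_single j]
    · rw [ind_of rfl, mul_one]
    · intro b _ hb; rw [ind_not hb, mul_zero]
    · intro h; exact absurd (Finset.mem_univ _) h
  rw [h2, mul_sub, mul_one, Finset.mul_sum]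
  congr 1
  refine Finset.sum_congr rfl fun y _ => ?_
  rw [Ex_const_mul]
  by_cases hw : ∀ l, w x y l = 0
  · simp only [hw, mul_zero, Finset.sum_const_zero]
    rw [Ex_const _ (isPr_unifW _), mul_zero]
  · push Not at hw
    obtain ⟨l, hl⟩ := hw
    rw [Ex_two hP κ x y (hind x y l hl) (fun l => ind (l = j)) (w x y), h2]
    ring

lemma lvo_update_ne (κ : V → Option ι) (lam : ι → ZMod m) (a : ι) (t : ZMod m) (v : V)
    (h : κ v ≠ some a) : lvo κ (Function.update lam a t) v = lvo κ lam v := by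
  unfold lvo
  cases hv : κ v with
  | none => rfl
  | some b =>
    have hb : b ≠ a := fun hb => h (by rw [hv, hb])
    simp only [Option.elim]
    rw [Function.update_of_ne hb]

/-- Changing one coordinate. -/
lemma Phi_lip (κ : V → Option ι) (A : V → ℝ) (w : V → V → ZMod m → ℝ) (wm : V → V → ℝ) (M : ℝ)
    (j : ZMod m) (hA : ∀ x, 0 ≤ A x) (hw0 : ∀ x y l, 0 ≤ w x y l)
    (hw1 : ∀ x y l, w x y l ≤ wm x y) (hM : ∀ x, ∑ y, wm x y ≤ M) (lam : ι → ZMod m) (a : ι)
    (t : ZMod m) :
    |Phi κ A w j (Function.update lam a t) - Phi κ A w j lam| ≤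
      ∑ v, ind (κ v = some a) * ((1 + M) * A v + ∑ x, A x * wm x v) := by
  have hwm0 : ∀ x y, 0 ≤ wm x y := fun x y => (hw0 x y 0).trans (hw1 x y 0)
  have hrhs : ∑ v, ind (κ v = some a) * ((1 + M) * A v + ∑ x, A x * wm x v) =
      ∑ x, (A x * ((1 + M) * ind (κ x = some a)) +
        A x * ∑ y, ind (κ y = some a) * wm x y) := by
    simp only [mul_add, Finset.sum_add_distrib]
    congr 1
    · exact Finset.sum_congr rfl fun x _ => by ring
    · simp only [Finset.mul_sum]
      rw [Finset.sum_comm]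
      exact Finset.sum_congr rfl fun x _ => Finset.sum_congr rfl fun y _ => by ring
  rw [hrhs]
  unfold Phi
  rw [← Finset.sum_sub_distrib]
  refine (Finset.abs_sum_le_sum_abs _ _).trans (Finset.sum_le_sum fun x _ => ?_)
  set lam' := Function.update lam a t with hlam'
  have hY : ∀ μ : ι → ZMod m, 0 ≤ ∑ y, w x y (lvo κ μ y) ∧ ∑ y, w x y (lvo κ μ y) ≤ M := by
    intro μ
    exact ⟨Finset.sum_nonneg fun y _ => hw0 _ _ _,
      (Finset.sum_le_sum fun y _ => hw1 _ _ _).trans (hM x)⟩
  have hM0 : 0 ≤ M := (hY lam).1.trans (hY lam).2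
  have hB : 0 ≤ ∑ y, ind (κ y = some a) * wm x y :=
    Finset.sum_nonneg fun y _ => mul_nonneg (ind_nonneg _) (hwm0 _ _)
  by_cases hx : κ x = some a
  · rw [ind_of hx, mul_one]
    have h1 : |A x * ind (lvo κ lam' x = j) * (1 - ∑ y, w x y (lvo κ lam' y)) -
        A x * ind (lvo κ lam x = j) * (1 - ∑ y, w x y (lvo κ lam y))| ≤ A x * (1 + M) := by
      have h2 : A x * ind (lvo κ lam' x = j) * (1 - ∑ y, w x y (lvo κ lam' y)) -
        A x * ind (lvo κ lam x = j) * (1 - ∑ y, w x y (lvo κ lam y)) =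
        A x * (ind (lvo κ lam' x = j) * (1 - ∑ y, w x y (lvo κ lam' y)) -
        ind (lvo κ lam x = j) * (1 - ∑ y, w x y (lvo κ lam y))) := by ring
      rw [h2, abs_mul, abs_of_nonneg (hA x)]
      refine mul_le_mul_of_nonneg_left ?_ (hA x)
      have key : ∀ (p : Prop) (Y : ℝ), 0 ≤ Y → Y ≤ M → -M ≤ ind p * (1 - Y) ∧
          ind p * (1 - Y) ≤ 1 := by
        intro p Y h0 h1
        by_cases hp : p
        · rw [ind_of hp]; constructor <;> linarith
        · rw [ind_not hp]; constructor <;> linarith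
      have k1 := key (lvo κ lam' x = j) _ (hY lam').1 (hY lam').2
      have k2 := key (lvo κ lam x = j) _ (hY lam).1 (hY lam).2
      rw [abs_le]
      constructor <;> linarith [k1.1, k1.2, k2.1, k2.2]
    have := mul_nonneg (hA x) hB
    linarith
  · rw [ind_not hx, mul_zero, mul_zero, zero_add]
    have e1 : lvo κ lam' x = lvo κ lam x := lvo_update_ne κ lam a t x hx
    rw [e1]
    have h2 : A x * ind (lvo κ lam x = j) * (1 - ∑ y, w x y (lvo κ lam' y)) -
        A x * ind (lvo κ lam x = j) * (1 - ∑ y, w x y (lvo κ lam y)) =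
        A x * (ind (lvo κ lam x = j) * ∑ y, (w x y (lvo κ lam y) - w x y (lvo κ lam' y))) := by
      rw [Finset.sum_sub_distrib]; ring
    rw [h2, abs_mul, abs_of_nonneg (hA x)]
    refine mul_le_mul_of_nonneg_left ?_ (hA x)
    rw [abs_mul, abs_of_nonneg (ind_nonneg _)]
    refine (mul_le_of_le_one_left (abs_nonneg _) (ind_le_one _)).trans ?_
    refine (Finset.abs_sum_le_sum_abs _ _).trans (Finset.sum_le_sum fun y _ => ?_)
    by_cases hy : κ y = some a
    · rw [ind_of hy, one_mul, abs_le]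
      have q1 := hw0 x y (lvo κ lam y)
      have q2 := hw1 x y (lvo κ lam y)
      have q3 := hw0 x y (lvo κ lam' y)
      have q4 := hw1 x y (lvo κ lam' y)
      constructor <;> linarith
    · have e2 : lvo κ lam' y = lvo κ lam y := lvo_update_ne κ lam a t y hy
      rw [e2, sub_self, abs_zero]
      exact mul_nonneg (ind_nonneg _) (hwm0 _ _)

/-- Deviation of a function with the Lipschitz bounds above. -/
lemma dev (hMCD : MCD_S.{u, 0}) (κ : V → Option ι) (F : (ι → ZMod m) → ℝ) (Dv : V → ℝ)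
    (D0 S0 d : ℝ) (hDv : ∀ v, 0 ≤ Dv v) (hlip : ∀ lam a t, |F (Function.update lam a t) - F lam| ≤
      ∑ v, ind (κ v = some a) * Dv v) (hD0 : ∀ v, Dv v ≤ D0) (hS0 : ∑ v, Dv v ≤ S0)
    (hfib : ∀ a, ∑ v, ind (κ v = some a) ≤ 2) (hD : 0 < D0) (hS : 0 < S0) (hd : 0 < d) :
    Pr (unifW (ι → ZMod m)) (fun lam => d ≤ |F lam - Ex (unifW (ι → ZMod m)) F|) ≤
      2 * Real.exp (-(d ^ 2 / (2 * (2 * D0 * S0)))) := by
  have h := hMCD ι (fun _ => ZMod m) (fun _ => unifW (ZMod m)) (fun _ => isPr_unifW _) F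
    (fun a => ∑ v, ind (κ v = some a) * Dv v) (2 * D0 * S0) d hlip ?_ (by positivity) hd
  · rw [← unifW_eq_piW] at h
    exact h
  · have h1 : ∀ a, ∑ v, ind (κ v = some a) * Dv v ≤ 2 * D0 := by
      intro a
      calc ∑ v, ind (κ v = some a) * Dv v ≤ ∑ v, ind (κ v = some a) * D0 :=
            Finset.sum_le_sum fun v _ => mul_le_mul_of_nonneg_left (hD0 v) (ind_nonneg _)
        _ = (∑ v, ind (κ v = some a)) * D0 := by rw [Finset.sum_mul]
        _ ≤ 2 * D0 := mul_le_mul_of_nonneg_right (hfib a) hD.le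
    have h2 : ∑ a, ∑ v, ind (κ v = some a) * Dv v ≤ S0 := by
      rw [Finset.sum_comm]
      refine (Finset.sum_le_sum fun v _ => ?_).trans hS0
      rw [← Finset.sum_mul]
      refine mul_le_of_le_one_left (hDv v) ?_
      cases hv : κ v with
      | none =>
        have : ∀ a : ι, ind ((none : Option ι) = some a) = 0 := fun a => ind_not (by simp)
        rw [Finset.sum_congr rfl (fun a _ => this a), Finset.sum_const_zero]
        exact zero_le_one
      | some b =>
        rw [Finset.sum_eq_single b]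
        · exact ind_le_one _
        · intro a _ ha; exact ind_not (fun h => ha (Option.some.inj h).symm)
        · intro h; exact absurd (Finset.mem_univ _) h
    calc ∑ a, (∑ v, ind (κ v = some a) * Dv v) ^ 2
        ≤ ∑ a, 2 * D0 * ∑ v, ind (κ v = some a) * Dv v := by
          refine Finset.sum_le_sum fun a _ => ?_
          rw [sq]
          exact mul_le_mul_of_nonneg_right (h1 a)
            (Finset.sum_nonneg fun v _ => mul_nonneg (ind_nonneg _) (hDv v))
      _ = 2 * D0 * ∑ a, ∑ v, ind (κ v = some a) * Dv v := by rw [Finset.mul_sum]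
      _ ≤ 2 * D0 * S0 := mul_le_mul_of_nonneg_left h2 (by positivity)

end abs

end Pool.Agent.Lib.MP_688fd0_co.TE.H2
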